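import Pool.Agent.H25.TRI.Targets
import Pool.Agent.H92.Hartogs.L2

/-! Row C_ML2 of reg_modules (MP_2697e3_an): mollification converges in `L^2`. -/

namespace Pool.Agent.H8.TRI

open MeasureTheory Metric Set Filter Topology Pool.Agent.H87.SN Pool.Agent.H25.TRI
open scoped ContDiff RealInnerProductSpace ENNReal

theorem ml2_mol {n : ℕ} (ρ f : E n → ℝ) :
    (fun x => ∫ z, ρ z * f (x - z)) = Pool.Agent.H92.mol (N := n) ρ f := by
  funext x
  rw [Pool.Agent.H92.mol_eq']
  rfl

theorem ml2_dense {n : ℕ} {m : ℕ → E n → ℝ} (hm : Moll m) {φ : E n → ℝ} (hφ : Continuous φ)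
    (hc : HasCompactSupport φ) :
    Tendsto (fun k => eLpNorm (fun x => (∫ z, m k z * φ (x - z)) - φ x) 2 volume)
      atTop (𝓝 0) := by
  set K : Set (E n) := cthickening 1 (tsupport φ) with hK
  have hKc : IsCompact K := hc.isCompact.cthickening
  have hKf : volume K ≠ ⊤ := hKc.measure_lt_top.ne
  have huc : UniformContinuous φ := hc.uniformContinuous_of_continuous hφ
  -- pointwise bound
  have key : ∀ ε : ℝ, 0 < ε → ∀ᶠ k in atTop, ∀ x,
      ‖(∫ z, m k z * φ (x - z)) - φ x‖ ≤ ε := by
    intro ε hε
    obtain ⟨δ, hδ, hd⟩ := Metric.uniformContinuous_iff.1 huc ε hε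
    have h1 : ∀ᶠ k : ℕ in atTop, 1 / ((k : ℝ) + 1) < δ :=
      (tendsto_one_div_add_atTop_nhds_zero_nat (𝕜 := ℝ)).eventually (gt_mem_nhds hδ)
    filter_upwards [h1] with k hk x
    have hi : Integrable (m k) := (hm.cc k).integrable
    have hz : ∀ z, m k z ≠ 0 → ‖z‖ ≤ 1 / ((k : ℝ) + 1) := by
      intro z hz
      have h2 : z ∈ closedBall (0 : E n) (1 / ((k : ℝ) + 1)) :=
        hm.supp k (subset_tsupport _ hz)
      rwa [mem_closedBall_zero_iff] at h2
    have hb : ∀ z, ‖m k z * (φ (x - z) - φ x)‖ ≤ ε * m k z := by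
      intro z
      rw [norm_mul, Real.norm_of_nonneg (hm.nonneg k z), mul_comm]
      by_cases h0 : m k z = 0
      · rw [h0]
        simp
      · refine mul_le_mul_of_nonneg_right ?_ (hm.nonneg k z)
        have h2 : dist (x - z) x < δ := by
          rw [dist_eq_norm]
          have h3 : x - z - x = -z := by abel
          rw [h3, norm_neg]
          exact lt_of_le_of_lt (hz z h0) hk
        have h4 := hd h2
        rw [dist_eq_norm] at h4
        exact h4.le
    have hcv : Integrable (fun z => m k z * φ (x - z)) := by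
      have h2 : Continuous fun z => m k z * φ (x - z) :=
        (hm.cc k).continuous.mul (hφ.comp (continuous_const.sub continuous_id))
      exact h2.integrable_of_hasCompactSupport ((hm.cc k).2.mul_right)
    have e1 : (∫ z, m k z * φ (x - z)) - φ x = ∫ z, m k z * (φ (x - z) - φ x) := by
      have e2 : φ x = ∫ z, m k z * φ x := by
        rw [integral_mul_const, hm.one k, one_mul]
      conv_lhs => rw [e2]
      rw [← integral_sub hcv (hi.mul_const _)]
      refine integral_congr_ae (Eventually.of_forall fun z => ?_)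
      change m k z * φ (x - z) - m k z * φ x = m k z * (φ (x - z) - φ x)
      ring
    rw [e1]
    calc ‖∫ z, m k z * (φ (x - z) - φ x)‖ ≤ ∫ z, ε * m k z :=
          norm_integral_le_of_norm_le (hi.const_mul ε) (Eventually.of_forall hb)
      _ = ε := by rw [integral_const_mul, hm.one k, mul_one]
  -- support
  have hsup : ∀ k, Function.support (fun x => (∫ z, m k z * φ (x - z)) - φ x) ⊆ K := by
    intro k x hx
    by_contra hxK
    refine hx ?_
    have h1 : φ x = 0 := by
      by_contra h
      exact hxK (self_subset_cthickening _ (subset_tsupport _ h))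
    have h2 : ∀ z, m k z * φ (x - z) = 0 := by
      intro z
      by_cases h0 : m k z = 0
      · rw [h0, zero_mul]
      · have h3 : φ (x - z) = 0 := by
          by_contra h
          refine hxK ?_
          refine mem_cthickening_of_dist_le x (x - z) 1 _ (subset_tsupport _ h) ?_
          rw [dist_eq_norm]
          have h4 : x - (x - z) = z := by abel
          rw [h4]
          have h5 : z ∈ closedBall (0 : E n) (1 / ((k : ℝ) + 1)) :=
            hm.supp k (subset_tsupport _ h0)
          rw [mem_closedBall_zero_iff] at h5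
          refine h5.trans ?_
          rw [div_le_one (by positivity)]
          have : (0 : ℝ) ≤ k := Nat.cast_nonneg k
          linarith
        rw [h3, mul_zero]
    change (∫ z, m k z * φ (x - z)) - φ x = 0
    simp only [h2, h1, integral_zero, sub_zero]
  rw [ENNReal.tendsto_nhds_zero]
  intro ε hε
  -- choose the real number
  obtain ⟨r, hr, hr2⟩ : ∃ r : ℝ, 0 < r ∧ volume K ^ (2⁻¹ : ℝ) * ENNReal.ofReal r ≤ ε := by
    have hfin : volume K ^ (2⁻¹ : ℝ) ≠ ⊤ := ENNReal.rpow_ne_top_of_nonneg (by norm_num) hKf
    by_cases he : ε = ⊤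
    · exact ⟨1, one_pos, by rw [he]; exact le_top⟩
    · have hden : volume K ^ (2⁻¹ : ℝ) + 1 ≠ ⊤ := by simp [hfin]
      refine ⟨(ε / (volume K ^ (2⁻¹ : ℝ) + 1)).toReal, ?_, ?_⟩
      · exact ENNReal.toReal_pos (ENNReal.div_pos hε.ne' hden).ne'
          (ENNReal.div_ne_top he (by simp))
      · rw [ENNReal.ofReal_toReal (ENNReal.div_ne_top he (by simp))]
        calc volume K ^ (2⁻¹ : ℝ) * (ε / (volume K ^ (2⁻¹ : ℝ) + 1)) ≤
              (volume K ^ (2⁻¹ : ℝ) + 1) * (ε / (volume K ^ (2⁻¹ : ℝ) + 1)) := by
              gcongr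
              exact le_self_add
          _ = ε := ENNReal.mul_div_cancel (by simp) hden
  filter_upwards [key r hr] with k hk
  rw [← eLpNorm_restrict_eq_of_support_subset (hsup k)]
  refine (eLpNorm_le_of_ae_bound (C := r) (Eventually.of_forall hk)).trans ?_
  rw [Measure.restrict_apply_univ]
  refine le_trans (le_of_eq ?_) hr2
  norm_num

/-- **ML2** -/
theorem pf_ML2 : T_ML2 := by
  intro n m hm f hf
  have hint : ∀ (k : ℕ) (u : E n → ℝ), MemLp u 2 (volume : Measure (E n)) → ∀ x,
      Integrable (fun z => m k z * u (x - z)) := by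
    intro k u hu x
    have h1 : LocallyIntegrable u (volume : Measure (E n)) := hu.locallyIntegrable (by norm_num)
    have h2 := (hm.cc k).2.convolutionExists_left (ContinuousLinearMap.lsmul ℝ ℝ)
      (hm.cc k).continuous h1 x
    exact h2
  refine Pool.Agent.H92.approx_principle (N := n)
    (fun (k : ℕ) (u : E n → ℝ) (x : E n) => ∫ z, m k z * u (x - z)) 1 (by simp) ?_ ?_ ?_ hf
  · intro k u hu
    have h1 : LocallyIntegrable u (volume : Measure (E n)) := hu.locallyIntegrable (by norm_num)
    have h2 : Continuous (Pool.Agent.H92.mol (N := n) (m k) u) :=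
      (Pool.Agent.H92.contDiff_mol (hm.cc k).1 (hm.cc k).2 h1).continuous
    have h3 := h2.aestronglyMeasurable (μ := (volume : Measure (E n)))
    rw [← ml2_mol] at h3
    exact h3
  · refine Eventually.of_forall fun k u v hu hv => ?_
    rw [one_mul]
    have e1 : (fun x => (∫ z, m k z * u (x - z)) - ∫ z, m k z * v (x - z)) =
        Pool.Agent.H92.mol (N := n) (m k) (fun x => u x - v x) := by
      rw [← ml2_mol]
      funext x
      rw [← integral_sub (hint k u hu x) (hint k v hv x)]
      refine integral_congr_ae (Eventually.of_forall fun z => ?_)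
      change m k z * u (x - z) - m k z * v (x - z) = m k z * (u (x - z) - v (x - z))
      ring
    rw [e1]
    exact Pool.Agent.H92.eL2_mol_le (hm.cc k).continuous (hm.cc k).integrable (hm.nonneg k)
      (hm.one k) (hu.1.sub hv.1)
  · intro φ hφ hc
    exact ml2_dense hm hφ hc

end Pool.Agent.H8.TRI
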